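import Mathlib

namespace Pool.Agent.Results.MP_cd64ef_nt.WrapAround

/-- The number of representations `g = a + b` with `a ∈ A`, `b ∈ B`. -/
noncomputable def rep {G : Type} [AddCommGroup G] (A B : Finset G) (g : G) : ℕ :=
  {p : G × G | p.1 ∈ A ∧ p.2 ∈ B ∧ p.1 + p.2 = g}.ncard

/-- The `t`-popular sumset `A +_t B`. -/
def pop {G : Type} [AddCommGroup G] (A B : Finset G) (t : ℕ) : Set G :=
  {g | t ≤ rep A B g}

/-- The stabilizer `{e : e + X = X}`. -/
def stab {G : Type} [AddCommGroup G] (X : Set G) : Set G :=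
  {e | (fun x => e + x) '' X = X}

/-- The conclusion of Q1 for `G, A, B, t`: for the unique `s ≥ 0`, `u ∈ [1, |H|]` with
`t = s |H| + u`, where `H` is the stabilizer of `A +_t B`. -/
def Conclusion {G : Type} [AddCommGroup G] (A B : Finset G) (t : ℕ) : Prop :=
  ∀ s u : ℕ, 1 ≤ u → u ≤ (stab (pop A B t)).ncard → t = s * (stab (pop A B t)).ncard + u →
    (∃ A' ⊆ A, ∃ B' ⊆ B,
      ((A : Set G) \ A').ncard + ((B : Set G) \ B').ncard < u ∧
      pop A' B' 1 = pop A' B' u ∧ pop A' B' u = pop A B u ∧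
      stab (pop A' B' 1) = stab (pop A' B' u) ∧
      stab (pop A' B' u) = stab (pop A B t)) ∧
    (t : ℤ) * A.card + t * B.card - t ^ 2 - u * ((stab (pop A B t)).ncard - u) ≤
      ∑ i ∈ Finset.Icc 1 t, ((pop A B i).ncard : ℤ)

/-- The statement of Q1 for one value of `t`. -/
def Statement (t : ℕ) : Prop :=
  ∀ (G : Type) [AddCommGroup G] (A B : Finset G), t ≤ A.card → t ≤ B.card →
    ∑ i ∈ Finset.Icc 1 t, ((pop A B i).ncard : ℤ) < (t : ℤ) * A.card + t * B.card - t ^ 2 →
    Conclusion A B t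

theorem rep_eq {G : Type} [AddCommGroup G] [DecidableEq G] (A B : Finset G) (g : G) :
    rep A B g = ((A ×ˢ B).filter (fun p => p.1 + p.2 = g)).card := by
  unfold rep
  rw [← Set.ncard_coe_finset]
  congr 1
  ext p
  simp [and_assoc]

abbrev A6 : Finset (ZMod 6) := {0, 1, 3, 4}

/-- computable version of the popular sumset in `ZMod 6` -/
abbrev cpop (t : ℕ) : Finset (ZMod 6) :=
  Finset.univ.filter (fun g => t ≤ ((A6 ×ˢ A6).filter (fun p => p.1 + p.2 = g)).card)

theorem pop_eq (t : ℕ) : pop A6 A6 t = (cpop t : Set (ZMod 6)) := by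
  ext g
  simp [pop, rep_eq, cpop]

theorem cpop_one : cpop 1 = Finset.univ := by decide +kernel
theorem cpop_two : cpop 2 = Finset.univ := by decide +kernel
theorem cpop_three : cpop 3 = {1, 4} := by decide +kernel

theorem stab_eq (X : Finset (ZMod 6)) :
    stab (X : Set (ZMod 6)) = ((Finset.univ.filter (fun e => X.image (fun x => e + x) = X) :
      Finset (ZMod 6)) : Set (ZMod 6)) := by
  ext e
  simp only [stab, Set.mem_ofPred_eq, Finset.coe_filter, Finset.mem_univ, true_and]
  rw [← Finset.coe_image, Finset.coe_inj]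

theorem stab3 : (Finset.univ.filter (fun e => (({1, 4} : Finset (ZMod 6)).image (fun x => e + x)) = {1, 4}) :
      Finset (ZMod 6)) = {0, 3} := by decide +kernel

theorem stab1 : (Finset.univ.filter (fun e => ((Finset.univ : Finset (ZMod 6)).image
      (fun x => e + x)) = Finset.univ) : Finset (ZMod 6)) = Finset.univ := by decide +kernel

theorem result : ¬ Statement 3 := by
  intro h
  have h1 := h (ZMod 6) A6 A6 (by decide) (by decide) (by
    have e : Finset.Icc 1 3 = ({1, 2, 3} : Finset ℕ) := by decide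
    rw [e]
    simp only [pop_eq, Set.ncard_coe_finset]
    rw [Finset.sum_insert (by decide), Finset.sum_insert (by decide), Finset.sum_singleton,
      cpop_one, cpop_two, cpop_three]
    decide)
  have hs : stab (pop A6 A6 3) = (({0, 3} : Finset (ZMod 6)) : Set (ZMod 6)) := by
    rw [pop_eq, cpop_three, stab_eq, stab3]
  have hc : (stab (pop A6 A6 3)).ncard = 2 := by
    rw [hs, Set.ncard_coe_finset]; decide
  obtain ⟨⟨A', hA, B', hB, -, -, h3, -, h4⟩, -⟩ := h1 1 1 le_rfl (by rw [hc]; norm_num)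
    (by rw [hc])
  rw [h3, hs, pop_eq, cpop_one, stab_eq, stab1, Finset.coe_inj] at h4
  exact absurd h4 (by decide)

end Pool.Agent.Results.MP_cd64ef_nt.WrapAround
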